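import Pool.Agent.X9.AP.Outer
import Pool.Agent.X9.AP.Small
import Pool.Agent.X9.AP.Exc

/-!
# MP_8ef15a_nt, Q1: sums of three antipalindromic numbers in base 3

A positive integer is antipalindromic in base `3` if its ternary digits `u_0, …, u_k` (with
`u_k ≠ 0`) satisfy `u_i + u_(k-i) = 2` for all `i`.  We prove that every positive integer other than
`24, 37, 49, 117, 421` is a sum of at most three antipalindromic numbers, and that these five
numbers are not.

Proof.  Let `E_L` be the set of values of antipalindromic strings of length `L` (leading zeros
allowed), so that `E_(L+2) = {u + 3e + (2-u) 3^(L+1) : e ∈ E_L, u ≤ 2}`.  For the four families of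
lengths `(K+2,K+1,K)`, `(K+3,K+2,K)`, `(K+3,K+1,K)`, `(K+5,K+2,K)` every integer of the right parity
in a long interval `[α 3^K, β 3^K]` is in the sum of the three sets.  This is an induction
`K → K + 2`: strip the outer digits of the three strings; two of the leading digits can be chosen
freely to keep the remaining number in the interval, and the third is determined by the residue
modulo `3` (`X9.AP.Inner`).  The base cases `K ≤ 11` are kernel computations with bit sets, in which
a string of length `L` is a sum of `L/2` choices among three integers (`X9.AP.Base`).  Adding one
more layer with non-zero leading digits, the four families cover all integers `≥ 3^14`, of both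
parities and all residues modulo `3` (`X9.AP.Outer`); below `3^14` a bit set computation with about
a hundred triples of lengths covers everything except the five exceptions (`X9.AP.Small`).
-/

namespace Pool.Agent.Results.MP_8ef15a_nt.AllButFive

/-- `n` is antipalindromic in base `3`: it is positive and its ternary digits `u_0, …, u_k`
(`Nat.digits 3 n`, least significant digit first, no leading zeros) satisfy `u_i + u_(k-i) = 2`. -/
def Antipalindromic (n : ℕ) : Prop :=
  0 < n ∧ ∀ i < (Nat.digits 3 n).length,
    (Nat.digits 3 n).getD i 0 + (Nat.digits 3 n).getD ((Nat.digits 3 n).length - 1 - i) 0 = 2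

/-- **Q1 is true**: the positive integers that are not sums of at most three numbers antipalindromic
in base `3` are exactly `24, 37, 49, 117, 421`. -/
theorem result (N : ℕ) (hN : 0 < N) :
    (Antipalindromic N ∨
      (∃ a b, Antipalindromic a ∧ Antipalindromic b ∧ N = a + b) ∨
      (∃ a b c, Antipalindromic a ∧ Antipalindromic b ∧ Antipalindromic c ∧ N = a + b + c)) ↔
    N ∉ ({24, 37, 49, 117, 421} : Finset ℕ) := by
  have key : (Antipalindromic N ∨
      (∃ a b, Antipalindromic a ∧ Antipalindromic b ∧ N = a + b) ∨
      (∃ a b c, Antipalindromic a ∧ Antipalindromic b ∧ Antipalindromic c ∧ N = a + b + c)) ↔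
      Pool.Agent.X9.AP.Rep N := Iff.rfl
  rw [key]
  simp only [Finset.mem_insert, Finset.mem_singleton]
  constructor
  · intro h hmem
    exact Pool.Agent.X9.AP.not_rep N hmem h
  · intro h
    by_cases hlt : N < 3 ^ 14
    · exact Pool.Agent.X9.AP.small N hlt (by omega) (by tauto)
    · exact Pool.Agent.X9.AP.large N (by omega)

end Pool.Agent.Results.MP_8ef15a_nt.AllButFive
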